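import Pool.Agent.MP_5d9b3c_ag.P3.Gal

/-! A stable subspace is spanned by its fixed vectors. -/

namespace Pool.Agent.MP_5d9b3c_ag.P3F

open P3

variable {F L : Type} [Field F] [Algebra F ℂ] [Algebra.IsAlgebraic F ℂ] [Field L] [Algebra ℂ L]

theorem desc (A : GA F L) (V : Submodule ℂ L) (hV : ∀ σ, ∀ x ∈ V, A.ρ σ x ∈ V) :
    V ≤ Submodule.span ℂ {x | x ∈ V ∧ ∀ σ, A.ρ σ x = x} := by
  intro x hx
  obtain ⟨S, hS⟩ := A.cont x
  let E := IntermediateField.adjoin F (S : Set ℂ)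
  have : FiniteDimensional F E :=
    IntermediateField.finiteDimensional_adjoin fun c _ => Algebra.IsIntegral.isIntegral c
  let r : Gm F → (E →ₐ[F] ℂ) := fun σ => (σ : ℂ →ₐ[F] ℂ).comp E.val
  have k : ∀ σ τ, r σ = r τ → A.ρ σ x = A.ρ τ x := fun σ τ e => by
    have := hS (τ⁻¹ * σ) fun c hc => by
      have : σ c = τ c := DFunLike.congr_fun e ⟨c, IntermediateField.subset_adjoin _ _ hc⟩
      simp [this]
    rw [map_mul, RingAut.mul_apply] at this
    rw [← A.ap_inv τ (A.ρ σ x), this]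
  have : Fintype (Set.range r) := Fintype.ofFinite _
  choose s hs using fun φ : Set.range r => φ.2
  have hc : ∀ φ (c : E), φ.1 c = s φ c := fun φ c => by rw [← hs φ]; rfl
  by_contra hn
  obtain ⟨l, l1, l2⟩ := Submodule.exists_dual_map_eq_bot_of_notMem hn inferInstance
  have li := (linearIndependent_monoidHom E ℂ).comp (fun φ : Set.range r => (φ.1 : E →* ℂ))
    fun φ ψ e => Subtype.ext (AlgHom.ext fun c => DFunLike.congr_fun e c)
  have := Fintype.linearIndependent_iff.1 li (fun φ => l (A.ρ (s φ) x)) (funext fun c => ?_)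
    ⟨r 1, 1, rfl⟩
  · rw [k _ _ (hs _), map_one, RingAut.one_apply] at this
    exact l1 this
  have m : ∑ φ, s φ c • A.ρ (s φ) x ∈ Submodule.span ℂ {x | x ∈ V ∧ ∀ σ, A.ρ σ x = x} := by
    refine Submodule.subset_span ⟨V.sum_mem fun φ _ => V.smul_mem _ (hV _ _ hx), fun σ => ?_⟩
    rw [map_sum]
    refine Fintype.sum_bijective (fun φ => (⟨r (σ * s φ), _, rfl⟩ : Set.range r))
      (Finite.injective_iff_bijective.1 fun φ ψ e => Subtype.ext (AlgHom.ext fun c => ?_)) _ _
      fun φ => ?_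
    · rw [hc, hc]
      exact σ.injective (DFunLike.congr_fun (congrArg Subtype.val e) c)
    · rw [A.smul, ← hc ⟨_, _, rfl⟩, k _ _ (hs ⟨_, _, rfl⟩), map_mul, RingAut.mul_apply]
      rfl
  have := (Submodule.eq_bot_iff _).1 l2 _ (Submodule.mem_map_of_mem m)
  simpa [hc, mul_comm] using this

end Pool.Agent.MP_5d9b3c_ag.P3F
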