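import Pool.Agent.MP_5d9b3c_ag.P3F.LF
import Pool.Agent.MP_5d9b3c_ag.P3F.Span
import Pool.Agent.MP_5d9b3c_ag.P3T.Res

/-! The fibred cases of the invariant frame. -/

namespace Pool.Agent.MP_5d9b3c_ag.P3F

open Pool.Agent.MP_ee8c61_ag M3 M3RESID M3F P3 P3T
open scoped IntermediateField

variable {F L : Type} [Field F] [Algebra F ℂ] [Field L] [Algebra ℂ L] {A : GA F L} {D : SD L}
  {u : L} {N : ℕ}

theorem rel_iff {σ : Gm F} {X X' : VF L} : Rel (A.ρ σ) X X' ↔ X' = (A.si σ).vf X :=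
  ⟨fun h => (A.si σ).vf_ext fun g => by rw [SI.vf_e]; exact h g,
    fun h g => h ▸ (A.si σ).vf_e X g⟩

theorem ac [Algebra.IsAlgebraic F ℂ] (h : A.Stab D) : Ac (fun σ => A.ρ σ) D.d D.v D.b where
  inv σ := ⟨σ⁻¹, congrArg SI.e (A.si_inv σ)⟩
  cst σ c := ⟨_, A.semi σ c⟩
  tr σ X := ⟨_, rel_iff.2 rfl⟩
  ex σ X X' r e := by
    rw [rel_iff.1 r, ← GA.invD_iff.1 h.d σ]
    exact (A.si σ).exa e
  hv σ X' r := by
    rw [rel_iff.1 r, GA.invV_iff.1 h.v σ, sub_self]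
    exact zero_mem _
  hb σ := by rw [A.semi, h.b]
  desc := desc A

theorem rf_st (h : A.Stab D) (σ : Gm F) (g : L) (hg : g ∈ RF D.x D.S0) :
    A.ρ σ g ∈ RF D.x D.S0 := by
  have := (A.si σ).e_mem_fi.2 hg
  rw [RF, SI.fi_adjoin] at this
  refine IntermediateField.adjoin.mono _ _ _ ?_ this
  rintro _ ⟨_, ⟨l, rfl⟩ | ⟨s, hs, s', hs', rfl⟩, rfl⟩
  · exact Or.inl ⟨l, (h.x l σ).symm⟩
  · exact Or.inr ⟨_, h.S0 σ s hs, _, h.S0 σ s' hs', map_div₀ _ _ _⟩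

theorem dg_mv {S : Finset L} (hS : A.Stb S) (σ : Gm F) {o : DV L} {n n' : ℚ} (h : Dg S o n)
    (h' : Dg S (mvd (A.ρ σ) o) n') : n = n' := by
  obtain ⟨s, ⟨s1, s2, -⟩, s3⟩ := id h
  obtain ⟨r, ⟨r1, r2, -⟩, r3⟩ := id h'
  have h1 := dg_le h (hS σ r r1) ((map_ne_zero _).2 r2)
  have h2 := dg_le h' (hS σ⁻¹ s s1) ((map_ne_zero _).2 s2)
  rw [show (mvd (A.ρ σ) o).v (A.ρ σ⁻¹ s) = o.v s from congrArg o.v (A.ap_inv σ s)] at h2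
  rw [show o.v (A.ρ σ r) = (mvd (A.ρ σ) o).v r from rfl] at h1
  linarith

theorem mv (h : A.Stab D) (hD : D.OK) : Mv (fun σ => A.ρ σ) D := fun σ o h1 h2 ⟨a, e⟩ => by
  have hm : (D.m : ℚ) ≠ 0 := Nat.cast_ne_zero.2 hD.sem.m.ne'
  have e0 := mul_left_cancel₀ hm (dg_mv h.S0 σ (hD.sem.dg0 _ h1) (hD.sem.dg0 _ h2))
  have e1 := mul_left_cancel₀ hm (dg_mv h.S1 σ (hD.sem.dg1 _ h1) (hD.sem.dg1 _ h2))
  rw [th_eq, th_eq, a] at e0 e1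
  refine ⟨mul_left_cancel₀ (sub_ne_zero.2 hD.sem.t1.ne') ?_, ?_⟩
  · linear_combination D.t1 * e0 - D.t0 * e1
  · have := (A.si σ).exp e
    rwa [GA.invD_iff.1 h.d σ, map_one, show (A.si σ).dv (mvd (A.ρ σ) o) = o from
      dv_ext fun g => congrArg o.v ((A.si σ).e_symm_e g)] at this

theorem starP (h : Res (fun σ => A.ρ σ) D u N) :
    ∃ v' y g, A.StarP D.d D.v D.b (Set.range D.x) u N v' y g := by
  obtain ⟨t, w, y, g, h1, -, -, h⟩ := h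
  refine ⟨w, y, g, h.g0, h.y0, h.ex, h.eu, fun z => ?_, ?_, fun σ x => (h.iw σ x).symm, h.iy,
    fun o a b c => h.ord o ⟨a, fun x hx => b x ((h.ker x).2 hx)⟩ c⟩
  · have hz : z ∈ (Kz t)⟮y⟯ := h.gen ▸ IntermediateField.mem_top
    refine Subfield.closure_mono ?_ (show z ∈ Subfield.closure _ from hz)
    rintro _ (⟨c, rfl⟩ | rfl)
    · exact Or.inl ((h.ker c).2 c.2)
    · exact Or.inr rfl
  · rintro _ ⟨l, rfl⟩
    exact (h.ker _).2 (h1 l)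

theorem lf1 : P3.LF1 := fun _ _ _ _ _ _ _ _ _ _ _ hD h hO ⟨h0, hp⟩ =>
  starP (res1 (ac h) (rf_st h) (mv h hD) hO hD h0 hp)

theorem lf2 : P3.LF2 := fun _ _ _ _ _ _ _ _ _ _ _ hD h hO ⟨h0, hp, _, hf, ht, hc⟩ =>
  starP (res2 (ac h) (mv h hD) hO hD h0 hp hf ht hc)

theorem lf3 : P3.LF3 := fun _ _ _ _ _ _ _ _ _ _ _ hD h hO ⟨h0, hc, hz, hp⟩ =>
  starP (res3 (ac h) (rf_st h) (mv h hD) hO hD h0 hc hz hp)

end Pool.Agent.MP_5d9b3c_ag.P3F
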