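import Pool.Agent.MP_5d9b3c_ag.P3F.Ex2
import Pool.Agent.MP_ee8c61_ag.M3F.LF

/-! Descent of the frame of a fibred surface under a group of semilinear automorphisms. -/

namespace Pool.Agent.MP_5d9b3c_ag.P3F

open Pool.Agent.MP_ee8c61_ag M3 M3RESID M3F Polynomial
open scoped IntermediateField

noncomputable section

variable {L : Type} [Field L] [Algebra ℂ L] {G : Type} {ρ : G → L ≃+* L} {d : Dv L} {v : VF L}
  {b : ℂ} {t y : L}

/-- The field `X'` is the transport of `X`. -/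
def Rel (e : L ≃+* L) (X X' : VF L) : Prop := ∀ g, X' (e g) = e (X g)

/-- What is used of the action. -/
structure Ac (ρ : G → L ≃+* L) (d : Dv L) (v : VF L) (b : ℂ) : Prop where
  inv : ∀ σ, ∃ τ, ρ τ = (ρ σ).symm
  cst : ∀ σ c, ∃ c', ρ σ (algebraMap ℂ L c) = algebraMap ℂ L c'
  tr : ∀ σ X, ∃ X', Rel (ρ σ) X X'
  ex : ∀ σ X X', Rel (ρ σ) X X' → X ∈ d.Ex → X' ∈ d.Ex
  hv : ∀ σ X', Rel (ρ σ) v X' → v - X' ∈ d.Ex
  hb : ∀ σ, ρ σ (algebraMap ℂ L b) = algebraMap ℂ L b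
  desc : ∀ V : Submodule ℂ L, (∀ σ, ∀ x ∈ V, ρ σ x ∈ V) →
    V ≤ Submodule.span ℂ {x | x ∈ V ∧ ∀ σ, ρ σ x = x}

theorem pow_eq_one {K0 : IntermediateField ℂ L} (h : M3H47.Rl K0 y) {c c' : K0} (hc : c ≠ 0)
    {n : ℕ} (hn : 0 < n) {z : L} (e : y ^ n + c = c' * z ^ n) : n = 1 := by
  have := cz K0
  by_contra h1
  obtain ⟨A, B, hAB, hB, hz⟩ := h.frac z
  have e1 : (X ^ n + C c) * B ^ n = C c' * A ^ n := h.inj _ _ (by
    simp only [map_mul, map_add, map_pow, aeval_X, aeval_C]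
    rw [← hz, mul_pow, ← mul_assoc]
    exact congrArg (· * aeval y B ^ n) e)
  have hs : Squarefree (X ^ n + C c : K0[X]) := by
    have := separable_X_pow_sub_C (-c) (n := n) (Nat.cast_ne_zero.2 hn.ne') (neg_ne_zero.2 hc)
    rw [map_neg, sub_neg_eq_add] at this
    exact this.squarefree
  have h2 : (X ^ n + C c : K0[X]) ∣ A ^ n := by
    by_cases h0 : c' = 0
    · rw [h0, map_zero, zero_mul] at e1
      exact absurd e1 (mul_ne_zero hs.ne_zero (pow_ne_zero n hB))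
    · exact ((isUnit_C.2 (Ne.isUnit h0)).dvd_mul_left).1 ⟨_, e1.symm⟩
  have h3 : (X ^ n + C c : K0[X]) ∣ A := (hs.dvd_pow_iff_dvd hn.ne').1 h2
  have h4 : (X ^ n + C c : K0[X]) * (X ^ n + C c) ∣ (X ^ n + C c) * B ^ n := by
    rw [e1, ← sq]
    exact ((pow_dvd_pow_of_dvd h3 2).trans (pow_dvd_pow _ (by omega))).mul_left _
  have h5 := (hAB.pow_right (n := n)).isUnit_of_dvd' h3 ((mul_dvd_mul_iff_left hs.ne_zero).1 h4)
  have h6 := natDegree_eq_zero_of_isUnit h5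
  rw [natDegree_X_pow_add_C] at h6
  omega

theorem rel_sub {e : L ≃+* L} {X X' Y Y' : VF L} (h : Rel e X X') (h' : Rel e Y Y') :
    Rel e (X - Y) (X' - Y') := fun g => by
  rw [Derivation.sub_apply, Derivation.sub_apply, map_sub, h g, h' g]

theorem rel_smul {e : L ≃+* L} {X X' : VF L} (h : Rel e X X') (a : L) :
    Rel e (a • X) (e a • X') := fun g => by
  rw [Derivation.smul_apply, Derivation.smul_apply, smul_eq_mul, smul_eq_mul, map_mul, h g]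

theorem eq_of_ap (C : Co L 2) (ht : ∃ X : VF L, X t ≠ 0) {s : L} (hs : fib C t s ≠ 0)
    {w w' : VF L} (h : w t = 0) (h' : w' t = 0) (e : w s = w' s) : w = w' := by
  obtain ⟨κ, rfl⟩ := fib_mul C ht h
  obtain ⟨κ', rfl⟩ := fib_mul C ht h'
  rw [mul_right_cancel₀ hs e]

theorem ker_iff (C : Co L 2) (ht : ∃ X : VF L, X t ≠ 0) {w : VF L} (h : w t = 0) (h0 : w ≠ 0)
    {x : L} : w x = 0 ↔ x ∈ Kz t := by
  refine ⟨fun e => ?_, fun e => e w h⟩
  obtain ⟨κ, rfl⟩ := fib_mul C ht h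
  exact (mem_Kz C ht).2 ((mul_eq_zero.1 e).resolve_left fun x => h0 (by rw [x, zero_smul]))

theorem δ_of (hv : d.δ v = algebraMap ℂ L b) {w : VF L} (h : v - w ∈ d.Ex) :
    d.δ w = algebraMap ℂ L b := by
  have := d.δ_Ex h
  rw [map_sub, hv] at this
  exact (sub_eq_zero.1 this).symm

namespace Ac

variable (h : Ac ρ d v b)
include h

theorem kz (ht : ∀ σ, ρ σ t = t) (σ : G) {x : L} (hx : x ∈ Kz t) : ρ σ x ∈ Kz t := fun X hX => by
  obtain ⟨τ, hτ⟩ := h.inv σ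
  obtain ⟨X', hX'⟩ := h.tr τ X
  have h1 : X' t = 0 := by rw [← ht τ, hX', show X t = 0 from hX, map_zero]
  have h2 := hX' (ρ σ x)
  rw [hτ, RingEquiv.symm_apply_apply, hx X' h1] at h2
  exact (map_eq_zero _).1 h2.symm

theorem mv {σ : G} {a : L} {c : ℂ} (ha : ρ σ a = algebraMap ℂ L c) {w w' : VF L}
    (hw : Rel (ρ σ) w w') (e : a • v - w ∈ d.Ex) : algebraMap ℂ L c • v - w' ∈ d.Ex := by
  obtain ⟨v', hv'⟩ := h.tr σ v
  have h1 := add_mem (h.ex σ _ _ (rel_sub (rel_smul hv' a) hw) e) (d.cst_mem c (h.hv σ _ hv'))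
  rwa [ha, smul_sub, add_comm, sub_add_sub_cancel] at h1

theorem mv1 {σ : G} {w w' : VF L} (hw : Rel (ρ σ) w w') (e : v - w ∈ d.Ex) : v - w' ∈ d.Ex := by
  simpa using h.mv (a := 1) (c := 1) (by simp) hw (by simpa using e)

theorem exists_fix {X : VF L} {V : Submodule ℂ L} (hV : ∀ σ, ∀ x ∈ V, ρ σ x ∈ V) {x : L}
    (hx : x ∈ V) (h0 : X x ≠ 0) : ∃ s ∈ V, (∀ σ, ρ σ s = s) ∧ X s ≠ 0 := by
  by_contra hn
  push Not at hn
  exact h0 ((Submodule.span_le (p := LinearMap.ker (X : L →ₗ[ℂ] L))).2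
    (fun s hs => hn s hs.1 hs.2) (h.desc V hV hx))

/-- An invariant vertical field in the class of `v`. -/
theorem exists_inv (C : Co L 2) (ht : ∃ X : VF L, X t ≠ 0) (hf : ∀ σ, ρ σ t = t) (hb : b ≠ 0)
    (hv : d.δ v = algebraMap ℂ L b) {w₀ : VF L} (h₀ : w₀ t = 0) (e₀ : v - w₀ ∈ d.Ex) :
    ∃ w : VF L, w t = 0 ∧ v - w ∈ d.Ex ∧ ∀ σ, Rel (ρ σ) w w := by
  obtain ⟨i, hi⟩ := fib_ne C ht
  obtain ⟨s, -, s1, s2⟩ := h.exists_fix (V := ⊤) (fun _ _ _ => trivial) trivial hi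
  have hb' : algebraMap ℂ L b ≠ 0 := (_root_.map_ne_zero _).2 hb
  let V : Submodule ℂ L :=
    { carrier := {z | ∃ (a : ℂ) (w : VF L), w t = 0 ∧ algebraMap ℂ L a • v - w ∈ d.Ex ∧ w s = z}
      add_mem' := by
        rintro _ _ ⟨a, w, h1, h2, rfl⟩ ⟨a', w', h1', h2', rfl⟩
        refine ⟨a + a', w + w', by simp [h1, h1'], ?_, rfl⟩
        rw [map_add, add_smul, add_sub_add_comm]
        exact add_mem h2 h2'
      zero_mem' := ⟨0, 0, rfl, by simp, rfl⟩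
      smul_mem' := by
        rintro c _ ⟨a, w, h1, h2, rfl⟩
        refine ⟨c * a, algebraMap ℂ L c • w, by simp [h1], ?_, by simp⟩
        rw [map_mul, mul_smul, ← smul_sub]
        exact d.cst_mem c h2 }
  let V₀ : Submodule ℂ L :=
    { carrier := {z | ∃ w : VF L, w t = 0 ∧ w ∈ d.Ex ∧ w s = z}
      add_mem' := by
        rintro _ _ ⟨w, h1, h2, rfl⟩ ⟨w', h1', h2', rfl⟩
        exact ⟨w + w', by simp [h1, h1'], add_mem h2 h2', rfl⟩
      zero_mem' := ⟨0, rfl, zero_mem _, rfl⟩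
      smul_mem' := by
        rintro c _ ⟨w, h1, h2, rfl⟩
        exact ⟨algebraMap ℂ L c • w, by simp [h1], d.cst_mem c h2, by simp⟩ }
  have k1 : ∀ σ {w w' : VF L}, Rel (ρ σ) w w' → w t = 0 → w' t = 0 := fun σ w w' r e => by
    rw [← hf σ, r, e, map_zero]
  have hV : ∀ σ, ∀ x ∈ V, ρ σ x ∈ V := by
    rintro σ _ ⟨a, w, h1, h2, rfl⟩
    obtain ⟨c, hc⟩ := h.cst σ a
    obtain ⟨w', hw⟩ := h.tr σ w
    exact ⟨c, w', k1 σ hw h1, h.mv hc hw h2, by rw [← hw, s1]⟩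
  by_contra hn
  obtain ⟨w, h1, h2, h3⟩ : w₀ s ∈ V₀ := by
    refine Submodule.span_le.2 ?_ (h.desc V hV ⟨1, w₀, h₀, by simpa using e₀, rfl⟩)
    rintro _ ⟨⟨a, w, h1, h2, rfl⟩, h3⟩
    have r : ∀ σ, Rel (ρ σ) w w := fun σ => by
      obtain ⟨w', hw⟩ := h.tr σ w
      rwa [eq_of_ap C ht s2 (k1 σ hw h1) h1 (by rw [← h3 σ, ← hw, s1])] at hw
    by_cases ha : a = 0
    · exact ⟨w, h1, by simpa [ha] using h2, rfl⟩
    refine absurd ⟨algebraMap ℂ L a⁻¹ • w, by simp [h1], ?_, fun σ => ?_⟩ hn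
    · have := d.cst_mem a⁻¹ h2
      rwa [smul_sub, smul_smul, ← map_mul, inv_mul_cancel₀ ha, map_one, one_smul] at this
    · obtain ⟨c, hc⟩ := h.cst σ a
      have h4 := d.δ_Ex (sub_mem (h.mv hc (r σ) h2) h2)
      rw [sub_sub_sub_cancel_right, ← sub_smul, ← map_sub, d.δ_cst, hv, map_sub] at h4
      have h5 := rel_smul (r σ) (algebraMap ℂ L a⁻¹)
      rwa [map_inv₀, map_inv₀, hc, sub_eq_zero.1 ((mul_eq_zero.1 h4).resolve_right hb'),
        ← map_inv₀] at h5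
  rw [eq_of_ap C ht s2 h1 h₀ h3] at h2
  exact hb' (by rw [← δ_of hv e₀, d.δ_Ex h2])

/-- An invariant eigenfunction. -/
theorem exists_eig {w : VF L} (hw : ∀ σ, Rel (ρ σ) w w) {g : ℚ} (hy : y ≠ 0)
    (e : (g : L) * w y = algebraMap ℂ L b * y) :
    ∃ z, z ≠ 0 ∧ (∀ σ, ρ σ z = z) ∧ (g : L) * w z = algebraMap ℂ L b * z := by
  have := cz L
  let V : Submodule ℂ L :=
    { carrier := {z | (g : L) * w z = algebraMap ℂ L b * z}
      add_mem' := fun {x z} hx hz => by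
        show _ * w (x + z) = _
        rw [map_add, mul_add, mul_add, hx, hz]
      zero_mem' := by simp
      smul_mem' := fun c x hx => by
        show _ * w (c • x) = _
        rw [Derivation.map_smul, mul_smul_comm, mul_smul_comm, hx] }
  by_contra hn
  push Not at hn
  refine hy ((Submodule.span_le (p := ⊥)).2 (fun z hz => ?_) (h.desc V (fun σ x hx => ?_) e))
  · by_contra h0
    exact hn z h0 hz.2 hz.1
  · show _ * w (ρ σ x) = _
    rw [hw σ, ← h.hb σ, ← map_mul, ← hx, map_mul, map_ratCast]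

end Ac

/-- Two vertical fields in the same class. -/
theorem two (C : Co L 2) (ht : ∃ X : VF L, X t ≠ 0) (hb : b ≠ 0)
    (hv : d.δ v = algebraMap ℂ L b) (hR : M3H47.Rl (Kz t) y) {g : ℚ} (hg : 0 < g) {w w' : VF L}
    (h : w t = 0) (h' : w' t = 0) (e : v - w ∈ d.Ex) (e' : v - w' ∈ d.Ex)
    (hy : (g : L) * w y = algebraMap ℂ L b * y) :
    w' = w ∨ ∃ (n : ℕ) (c : Kz t), g = n ∧ c ≠ 0 ∧ w' = ((y ^ n + c) / y ^ n) • w := by
  have := cz L
  have hb' : algebraMap ℂ L b ≠ 0 := (_root_.map_ne_zero _).2 hb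
  have hg' : (g : L) ≠ 0 := Rat.cast_ne_zero.2 hg.ne'
  have y0 := hR.y_ne
  have w0 : w y ≠ 0 := fun x => mul_ne_zero hb' y0 (by rw [← hy, x, mul_zero])
  obtain ⟨κ, rfl⟩ : ∃ κ : L, w' = κ • w := by
    obtain ⟨κ, rfl⟩ := fib_mul C ht h
    obtain ⟨κ', rfl⟩ := fib_mul C ht h'
    have k0 : κ ≠ 0 := fun x => w0 (by simp [x])
    exact ⟨κ' / κ, by rw [smul_smul, div_mul_cancel₀ _ k0]⟩
  by_cases h1 : κ - 1 = 0
  · exact Or.inl (by rw [sub_eq_zero.1 h1, one_smul])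
  have h2 := δ_of hv e'
  rw [d.smul, δ_of hv e] at h2
  have h3 : w (κ - 1) = -(algebraMap ℂ L b * (κ - 1)) := by
    rw [map_sub, Derivation.map_one_eq_zero]
    linear_combination h2
  have k : ∀ c ∈ Kz t, w c = 0 := fun c hc => hc w h
  obtain ⟨m, hm⟩ := M3H47.eig_int hR (((g : L) / algebraMap ℂ L b) • w)
    (fun c hc => by simp [k c hc]) (by
      rw [Derivation.smul_apply, smul_eq_mul, div_mul_eq_mul_div, hy, mul_div_cancel_left₀ _ hb'])
    h1 (a := g) (by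
      rw [Derivation.smul_apply, h3, map_ratCast, smul_eq_mul]
      field_simp
      ring)
  have hm' : g = m := by exact_mod_cast hm
  obtain ⟨n, rfl⟩ := Int.eq_ofNat_of_zero_le (show 0 ≤ m by exact_mod_cast (hm' ▸ hg.le :))
  have hn : (g : L) = n := by rw [hm']; simp
  have n0 : n ≠ 0 := fun x => hg' (by rw [hn, x, Nat.cast_zero])
  refine Or.inr ⟨n, ⟨(κ - 1) * y ^ n, M3H47.ker_le hR w k w0 ?_⟩, by simpa using hm',
    fun x => mul_ne_zero h1 (pow_ne_zero n y0) (congrArg Subtype.val x), ?_⟩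
  · obtain ⟨n, rfl⟩ := Nat.exists_eq_succ_of_ne_zero n0
    rw [Derivation.leibniz, Derivation.leibniz_pow, h3]
    rw [hn] at hy
    simp only [smul_eq_mul, nsmul_eq_mul, Nat.succ_eq_add_one, Nat.add_sub_cancel]
    linear_combination (κ - 1) * y ^ n * hy
  · congr 1
    field_simp
    ring

/-- The valuation moved by an automorphism. -/
def mvd (e : L ≃+* L) (o : DV L) : DV L where
  v g := o.v (e g)
  zero := by rw [map_zero, o.zero]
  mul g h hg hh := by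
    rw [map_mul, o.mul _ _ ((map_ne_zero e).2 hg) ((map_ne_zero e).2 hh)]
  add g h hg hh hs := by
    rw [map_add]
    exact o.add _ _ ((map_ne_zero e).2 hg) ((map_ne_zero e).2 hh)
      (by rw [← map_add]; exact (map_ne_zero e).2 hs)

theorem v_add {K₀ : IntermediateField ℂ L} {o : DV L} (ho : Hor K₀ o) (hy : 0 < o.v y) {c : L}
    (hc : c ∈ K₀) (h0 : c ≠ 0) : o.v (y + c) = 0 := by
  have h1 := ho.unit hc
  have h2 : y + c ∉ o.F 1 := fun e => by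
    have := (sub_mem e (show y ∈ o.F 1 from Or.inr hy)).resolve_left (by simpa using h0)
    rw [add_sub_cancel_left] at this
    omega
  have h3 := (add_mem (show y ∈ o.F 0 from Or.inr hy.le) (ho.2 c hc)).resolve_left
    fun e => h2 (Or.inl e)
  exact le_antisymm (not_lt.1 fun e => h2 (Or.inr e)) h3

/-- The invariant frame. -/
structure Out (ρ : G → L ≃+* L) (d : Dv L) (v : VF L) (b : ℂ) (t : L) (R : DV L → Prop) (w : VF L)
    (y : L) (g : ℚ) : Prop where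
  g0 : g ≠ 0
  y0 : y ≠ 0
  ex : v - w ∈ d.Ex
  eu : (g : L) * w y = algebraMap ℂ L b * y
  ker : ∀ c, w c = 0 ↔ c ∈ Kz t
  gen : (Kz t)⟮y⟯ = ⊤
  iw : ∀ σ, Rel (ρ σ) w w
  iy : ∀ σ, ρ σ y = y
  ord : ∀ o, Hor (Kz t) o → o.v y = 0 → R o

theorem Ac.out (h : Ac ρ d v b) {C : Co L 2} (hS : Srf C d v b) (ht : ∃ X : VF L, X t ≠ 0)
    (hf : ∀ σ, ρ σ t = t) {R : DV L → Prop}
    (hu : ∀ σ o, Hor (Kz t) o → Hor (Kz t) (mvd (ρ σ) o) → R (mvd (ρ σ) o) → R o)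
    (hF : FrE d v b t R) : ∃ w y g, Out ρ d v b t R w y g := by
  have := cz L
  obtain ⟨y, g, hg, gen, ⟨w, e, hy, k⟩, hN⟩ := hF
  have hb' : algebraMap ℂ L b ≠ 0 := (_root_.map_ne_zero _).2 hS.ne
  have hg' : (g : L) ≠ 0 := Rat.cast_ne_zero.2 hg.ne'
  have tr : Transcendental (Kz t) y := by
    obtain ⟨C', rfl, hC⟩ := rul C ht gen
    exact hC.tr
  have hR := M3H47.rl_of tr gen
  have y0 := hR.y_ne
  have wt := k t (self_mem_Kz t)
  have ne : ∀ {w : VF L}, v - w ∈ d.Ex → w ≠ 0 := fun e x =>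
    hb' (by rw [← δ_of hS.prim e, x, map_zero])
  suffices ∃ w y, y ≠ 0 ∧ w t = 0 ∧ v - w ∈ d.Ex ∧ (g : L) * w y = algebraMap ℂ L b * y ∧
      (Kz t)⟮y⟯ = ⊤ ∧ (∀ σ, Rel (ρ σ) w w) ∧ ∀ o, Hor (Kz t) o → o.v y = 0 → R o by
    obtain ⟨w, y, h1, h2, h3, h4, h5, h6, h7⟩ := this
    obtain ⟨z, z0, z1, z2⟩ := h.exists_eig h6 h1 h4
    have h8 : z / y ∈ Kz t := (ker_iff C ht h2 (ne h3)).1 (mul_left_cancel₀ hg' (by
      rw [Derivation.leibniz_div]
      simp only [smul_eq_mul]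
      linear_combination y⁻¹ ^ 2 * y * z2 - y⁻¹ ^ 2 * z * h4))
    refine ⟨w, z, g, hg.ne', z0, h3, z2, fun c => ker_iff C ht h2 (ne h3), ?_, h6, z1,
      fun o ho x => h7 o ho ?_⟩
    · simpa [h1] using gen_aff h5 h8 (div_ne_zero z0 h1) (zero_mem _)
    · have := ho.unit h8
      rw [div_eq_mul_inv, o.mul _ _ z0 (inv_ne_zero h1), o.inv] at this
      omega
  by_cases hw : ∀ σ, Rel (ρ σ) w w
  · exact ⟨w, y, y0, wt, e, hy, gen, hw, hN⟩
  obtain ⟨σ, hσ⟩ := not_forall.1 hw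
  obtain ⟨w', r⟩ := h.tr σ w
  have w't : w' t = 0 := by rw [← hf σ, r, wt, map_zero]
  obtain ⟨n, c, rfl, c0, e1⟩ := (two C ht hS.ne hS.prim hR hg wt w't e (h.mv1 r e) hy).resolve_left
    fun x => hσ (x ▸ r)
  have n0 : 0 < n := by exact_mod_cast hg
  have z0 : ρ σ y ≠ 0 := (_root_.map_ne_zero _).2 y0
  rw [Rat.cast_natCast] at hy hg'
  have e2 : (n : L) * w' (ρ σ y) = algebraMap ℂ L b * ρ σ y := by
    rw [r, ← h.hb σ, ← map_mul, ← hy, map_mul, map_natCast]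
  have pw : ∀ {w : VF L} {y : L}, (n : L) * w y = algebraMap ℂ L b * y →
      w (y ^ n) = algebraMap ℂ L b * y ^ n := fun {w y} x => by
    obtain ⟨m, rfl⟩ := Nat.exists_eq_succ_of_ne_zero n0.ne'
    rw [Derivation.leibniz_pow]
    simp only [smul_eq_mul, nsmul_eq_mul, Nat.succ_eq_add_one, Nat.add_sub_cancel] at x ⊢
    linear_combination y ^ m * x
  have e3 : (y ^ n + c) / ρ σ y ^ n ∈ Kz t := (ker_iff C ht w't (ne (h.mv1 r e))).1 (by
    have : w' (y ^ n + c) = algebraMap ℂ L b * (y ^ n + c) := by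
      rw [e1, Derivation.smul_apply, map_add, pw hy, k c c.2, smul_eq_mul]
      field_simp
      ring
    rw [Derivation.leibniz_div, this, pw e2]
    simp only [smul_eq_mul]
    ring)
  obtain rfl := pow_eq_one hR c0 n0 (c' := ⟨_, e3⟩) (z := ρ σ y)
    (div_mul_cancel₀ _ (pow_ne_zero n z0)).symm
  simp only [pow_one, Nat.cast_one, one_mul] at *
  have cl : ∀ o, Hor (Kz t) o → 0 ≤ o.v y → R o := fun o ho x => by
    rcases x.eq_or_lt with x | x
    · exact hN o ho x.symm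
    have c1 : (c : L) ≠ 0 := fun x => c0 (Subtype.ext x)
    have s0 : y + c ≠ 0 := fun x =>
      tr (by rw [eq_neg_of_add_eq_zero_left x]; exact (isAlgebraic_algebraMap c).neg)
    have h1 := ho.unit e3
    rw [div_eq_mul_inv, o.mul _ _ s0 (inv_ne_zero z0), o.inv, v_add ho x c.2 c1] at h1
    obtain ⟨π, hπ⟩ := ho.1
    have h2 : Hor (Kz t) (mvd (ρ σ) o) := ⟨⟨(ρ σ).symm π, by simpa [mvd] using hπ⟩, fun a ha =>
      Or.inr (ho.unit (h.kz hf σ ha)).ge⟩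
    exact hu σ o ho h2 (hN _ h2 (show o.v (ρ σ y) = 0 by omega))
  obtain ⟨w'', a1, a2, a3⟩ := h.exists_inv C ht hf hS.ne hS.prim wt e
  obtain ⟨a, ha⟩ : ∃ a : Kz t, w'' = ((y + a) / y) • w := by
    rcases two C ht hS.ne hS.prim hR one_pos wt a1 e a2 (by simpa using hy) with x | ⟨n, a, x, -, z⟩
    · exact ⟨0, by simp [x, y0]⟩
    · obtain rfl : n = 1 := by exact_mod_cast x.symm
      exact ⟨a, by simpa using z⟩
  refine ⟨w'', y + a, fun x => tr ?_, a1, a2, ?_, by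
    simpa using gen_aff gen (one_mem _) one_ne_zero a.2, a3, fun o ho x => cl o ho ?_⟩
  · rw [eq_neg_of_add_eq_zero_left x]
    exact (isAlgebraic_algebraMap a).neg
  · rw [ha, Derivation.smul_apply, map_add, hy, k a a.2, smul_eq_mul]
    field_simp
    ring
  · have := (sub_mem (show y + a ∈ o.F 0 from Or.inr x.ge) (ho.2 _ a.2)).resolve_left
      (by simpa using y0)
    rwa [add_sub_cancel_right] at this

end

end Pool.Agent.MP_5d9b3c_ag.P3F
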