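import Pool.Agent.MP_ee8c61_ag.M3H47.Expl

/-! The frame on a generic fibre with its coordinate exposed. -/

namespace Pool.Agent.MP_5d9b3c_ag.P3F

open Polynomial Pool.Agent.MP_ee8c61_ag M3RESID M3H47

variable {L : Type} [Field L] [Algebra ℂ L] {K0 : IntermediateField ℂ L} {y t : L}

/-- Modulo exact fields `v` is an Euler field in the given coordinate `y` over `K0`. -/
def Fm (d : Dv L) (v : VF L) (b : ℂ) (K0 : IntermediateField ℂ L) (y : L) (g : ℚ) : Prop :=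
  ∃ v' : VF L, v - v' ∈ d.Ex ∧ (g : L) * v' y = algebraMap ℂ L b * y ∧ ∀ c ∈ K0, v' c = 0

theorem fm_of {X0 X1 : VF L} (A : Ada K0 y t X0 X1) {d : Dv L} {v : VF L} {b : ℂ} {a : ℚ} {α : L}
    (h1 : v - α • X0 ∈ d.Ex) (h2 : (a : L) * α = algebraMap ℂ L b) : Fm d v b K0 y a :=
  ⟨α • X0, h1, by rw [Derivation.smul_apply, A.y0, smul_eq_mul, ← mul_assoc, h2],
    fun c hc => by simp [A.k0 c hc]⟩

/-- F1: the exponent is not an integer -/
theorem fr_F1 (C : Co L 2) (ty : Transcendental K0 y)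
    (gen : IntermediateField.adjoin K0 {y} = ⊤) (d : Dv L) (v : VF L) (b : ℂ)
    (hv : d.δ v = algebraMap ℂ L b) (a : ℚ) (ha : ∀ n : ℤ, a ≠ n)
    (good : ∀ P : K0[X], Irreducible P → ¬P ∣ X → Good d v K0 y P)
    {O0 O1 : ValuationSubring L} (k0 : ∀ c ∈ K0, c ∈ O0) (y0 : y ∈ O0.nonunits) (l0 : Log d O0 y)
    (e0 : LogE d O0 y a) (k1 : ∀ c ∈ K0, c ∈ O1) (y1 : y ∉ O1) (l1 : Log d O1 y⁻¹) :
    Fm d v b K0 y a := by
  have h := rl_of ty gen
  have hy := h.y_ne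
  obtain ⟨t, X0, X1, A⟩ := h.exists_ada C
  obtain ⟨a0, -⟩ := A.flat h (rl_inv ty gen) good k0 y0 l0 e0 k1 y1 l1
  have ha' : ∀ n : ℤ, (a : ℂ) ≠ n := fun n e => ha n (by exact_mod_cast e)
  obtain ⟨g, -, _, ⟨k, rfl⟩, B, e⟩ := A.red h a0 good (zero_mem _)
  obtain ⟨B', hB⟩ := A.laurent hy (a := a) (-k)
    (fun n e => ha' (-(-k + n)) (by push_cast at e ⊢; linear_combination e)) B
  obtain ⟨α, h1, h2, -⟩ := A.vert hy a0 hv (zero_mem _) (g := g + y ^ (-k : ℤ) * aeval y B') (by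
    rw [map_add, ← hB, ← e]
    simp only [map_pow, aeval_X, zpow_neg, zpow_natCast]
    field_simp
    ring)
  refine fm_of A h1 ?_
  by_contra hne
  obtain ⟨n, hn⟩ := eig_int h X0 A.k0 A.y0 (sub_ne_zero.2 hne) (a := a) (by
    rw [nab_apply, map_ratCast] at h2
    rw [map_sub, Derivation.map_algebraMap, Derivation.leibniz, A.k0 _ (SubfieldClass.ratCast_mem K0 a),
      map_ratCast]
    simp only [smul_eq_mul]
    linear_combination (a : L) * h2)
  exact ha' n hn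

/-- F2: the exponent is the positive integer `n + 1` and the class is capped at `y = 0` -/
theorem fr_F2 (C : Co L 2) (ty : Transcendental K0 y)
    (gen : IntermediateField.adjoin K0 {y} = ⊤) (d : Dv L) (v : VF L) (b : ℂ)
    (hv : d.δ v = algebraMap ℂ L b) (n : ℕ)
    (good : ∀ P : K0[X], Irreducible P → ¬P ∣ X → Good d v K0 y P)
    {O0 O1 : ValuationSubring L} (k0 : ∀ c ∈ K0, c ∈ O0) (y0 : y ∈ O0.nonunits) (l0 : Log d O0 y)
    (e0 : LogE d O0 y (n + 1)) (k1 : ∀ c ∈ K0, c ∈ O1) (y1 : y ∉ O1) (l1 : Log d O1 y⁻¹)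
    (cap : ∃ u ∈ d.Ex, Keep (y ^ n • (v - u)) O0 ∧ (y ^ n • (v - u)) y / y ∈ O0) :
    Fm d v b K0 y (n + 1) := by
  have : CharZero L := charZero_of_injective_algebraMap (algebraMap ℂ L).injective
  have h := rl_of ty gen
  have hy := h.y_ne
  obtain ⟨t, X0, X1, A⟩ := h.exists_ada C
  obtain ⟨a0, a1⟩ := A.flat h (rl_inv ty gen) good k0 y0 l0 e0 k1 y1 l1
  obtain ⟨u, hu, c1, c2⟩ := cap
  have y0' : y ∈ O0 := ValuationSubring.nonunits_subset y0
  have vi := val_iff h k0 y0' prime_X (by simpa using y0)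
  obtain ⟨g, hg, e⟩ := A.cap h a0 good hu ((vi _).1 (c1 t (k0 t A.t0)))
  obtain ⟨α, h1, h2, h3⟩ := A.vert hy a0 hv hu e
  refine fm_of A h1 ?_
  have m1 : y ^ n * α ∈ O0 := by
    have e1 : X1 (y ^ n * g) = y ^ n * X1 g := by
      simp [Derivation.leibniz_pow, A.y1]
    have e2 : y ^ n * α = (y ^ n • (v - u)) y / y + (y ^ n * g * d.δ X1 + X1 (y ^ n * g)) := by
      rw [h3, e1, Derivation.smul_apply, smul_eq_mul]; ring
    rw [e2]
    exact add_mem c2 (add_mem (mul_mem ((vi _).2 hg) (k0 _ a1)) ((vi _).2 ((A.p1 h).lo _ hg)))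
  rw [nab_apply, map_add, map_natCast, map_one] at h2
  have m2 : y ^ (n + 1) * ((n + 1) * α - algebraMap ℂ L b) ∈ K0 := by
    refine ker_le h X0 A.k0 (by rw [A.y0]; exact hy) ?_
    have p1 := eig_zpow X0 hy (c := 1) (by simpa using A.y0) (n + 1 : ℕ)
    rw [zpow_natCast] at p1
    rw [Derivation.leibniz, p1, map_sub, Derivation.map_algebraMap, Derivation.leibniz,
      A.k0 _ (add_mem (natCast_mem K0 n) (one_mem _)), Algebra.smul_def (_ * _)]
    simp only [smul_eq_mul, mul_one, Int.cast_natCast, map_natCast]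
    push_cast
    linear_combination y ^ (n + 1) * ((n : L) + 1) * h2
  have m3 := k0_nu k0 m2 (by
    have : y ^ (n + 1) * ((n + 1) * α - algebraMap ℂ L b) =
        ((n + 1) * (y ^ n * α) - y ^ n * algebraMap ℂ L b) * y := by ring
    rw [this]
    exact nu_mul (sub_mem (mul_mem (k0 _ (add_mem (natCast_mem K0 n) (one_mem _))) m1)
      (mul_mem (pow_mem y0' n) (k0 _ (K0.algebraMap_mem b)))) y0)
  push_cast
  exact sub_eq_zero.1 ((mul_eq_zero.1 m3).resolve_left (pow_ne_zero _ hy))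

/-- F3: only the place at infinity is special -/
theorem fr_F3 (C : Co L 2) (ty : Transcendental K0 y)
    (gen : IntermediateField.adjoin K0 {y} = ⊤) (d : Dv L) (v : VF L) (b : ℂ)
    (hv : d.δ v = algebraMap ℂ L b) (good : ∀ P : K0[X], Irreducible P → Good d v K0 y P)
    {O1 : ValuationSubring L} (k1 : ∀ c ∈ K0, c ∈ O1) (y1 : y ∉ O1) (l1 : Log d O1 y⁻¹) :
    ∃ c ∈ K0, Fm d v b K0 (algebraMap ℂ L b * y + c) 1 := by
  have h := rl_of ty gen
  have hy := h.y_ne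
  obtain ⟨t, X0, X1, A⟩ := h.exists_ada C
  obtain ⟨O0, k0, y0', y0, r0, u, hu, c1⟩ := good X irreducible_X
  rw [aeval_X] at y0
  obtain ⟨a0, -⟩ := A.flat h (rl_inv ty gen) (fun P hP _ => good P hP) k0 y0
    (fun Z hZ _ => r0 Z hZ) (a := ((0 : ℕ) : ℂ) + 1) (fun Z hZ => by
      have h1 := r0 (y⁻¹ • Z) fun g hg => by
        rw [Derivation.smul_apply, smul_eq_mul, mul_comm, ← div_eq_mul_inv]
        exact hZ g hg
      have h2 : d.δ Z - algebraMap ℂ L (((0 : ℕ) : ℂ) + 1) * (Z y / y) = d.δ (y⁻¹ • Z) * y := by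
        rw [d.smul, Derivation.leibniz_inv]
        simp only [Nat.cast_zero, zero_add, map_one, smul_eq_mul]
        field_simp
        ring
      rw [h2]
      exact nu_mul h1 y0) k1 y1 l1
  have vi := val_iff h k0 y0' prime_X (by simpa using y0)
  obtain ⟨g, -, e⟩ := A.cap h a0 (fun P hP _ => good P hP) hu
    (by simpa using (vi _).1 (c1 t (k0 t A.t0)))
  obtain ⟨α, h1, h2, -⟩ := A.vert hy a0 hv hu e
  rw [nab_apply, Nat.cast_zero, zero_add, map_one, one_mul] at h2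
  have m1 : X0 (y * α) = algebraMap ℂ L b * y := by
    rw [Derivation.leibniz, A.y0, smul_eq_mul, smul_eq_mul, ← h2]; ring
  refine ⟨y * α - algebraMap ℂ L b * y, ker_le h X0 A.k0 (by rw [A.y0]; exact hy) (by
    rw [map_sub, m1, Derivation.leibniz, A.y0, Derivation.map_algebraMap]
    simp), α • X0, h1, ?_, fun c hc => by simp [A.k0 c hc]⟩
  rw [add_sub_cancel, Derivation.smul_apply, m1, smul_eq_mul]
  push_cast
  ring

end Pool.Agent.MP_5d9b3c_ag.P3F
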