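import Pool.Agent.MP_5d9b3c_ag.P3F.Ex1
import Pool.Agent.MP_ee8c61_ag.M3F.All

/-! The frame of a fibred surface with its ordinary curves exposed. -/

namespace Pool.Agent.MP_5d9b3c_ag.P3F

open Pool.Agent.MP_ee8c61_ag M3 M3RESID M3F Polynomial WithZero Pool.Agent.MP_cce4c9_lc.H87 Finset
open scoped IntermediateField

noncomputable section

variable {L : Type} [Field L] [Algebra ℂ L] {C : Co L 2} {d : Dv L} {v : VF L} {b : ℂ} {t : L}

/-- A frame over the constants of the pencil `t`; the horizontal curves other than the two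
sections have the property `R`. -/
def FrE (d : Dv L) (v : VF L) (b : ℂ) (t : L) (R : DV L → Prop) : Prop :=
  ∃ (y : L) (g : ℚ), 0 < g ∧ (Kz t)⟮y⟯ = ⊤ ∧ Fm d v b (Kz t) y g ∧
    ∀ o, Hor (Kz t) o → o.v y = 0 → R o

theorem gen_aff {K₀ : IntermediateField ℂ L} {y a c : L} (h : K₀⟮y⟯ = ⊤) (ha : a ∈ K₀)
    (h0 : a ≠ 0) (hc : c ∈ K₀) : K₀⟮a * y + c⟯ = ⊤ := by
  rw [eq_top_iff, ← h, IntermediateField.adjoin_simple_le_iff]
  have := div_mem (sub_mem (IntermediateField.mem_adjoin_simple_self K₀ (a * y + c))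
    (IntermediateField.algebraMap_mem _ ⟨c, hc⟩)) (IntermediateField.algebraMap_mem _ ⟨a, ha⟩)
  rwa [show (a * y + c - algebraMap K₀ L ⟨c, hc⟩) / algebraMap K₀ L ⟨a, ha⟩ = y by
    show (a * y + c - c) / a = y
    field_simp
    ring] at this

section Main

variable {Y : Derivation (Kz t) L L} {N : Place (Kz t) L → ℕ} {R : DV L → Prop}

theorem fin1 (hS : Srf C d v b) (ht : ∃ X : VF L, X t ≠ 0) (hD : M3G.Deg Y 0 N)
    {P₀ : Place (Kz t) L} (h₀ : N P₀ = 1) {a : ℂ} (ha : Exp d (dvOf P₀) a)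
    (hr : ∀ P, P ≠ P₀ → (Exp d (dvOf P) 1 ∧ Good d v (dvOf P)) ∧ R (dvOf P)) : FrE d v b t R := by
  obtain ⟨y, h1, h2, h3, -⟩ := hD.rat rfl P₀ h₀
  obtain ⟨C', rfl, hC⟩ := rul C ht h3
  have hb : algebraMap ℂ L b ≠ 0 := (_root_.map_ne_zero _).2 hS.ne
  obtain ⟨c, hc, hF⟩ := fr_F3 C' hC.tr hC.gen d v b hS.prim (fun p hp => by
    obtain ⟨P, hP, h⟩ := ord_place hD h1 hp
    exact Ord.good ⟨_, hor_dvOf P, (mem_F P).2 (h2 P hP), (lt_iff P).1 h, (hr P hP).1⟩)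
    (hor_dvOf P₀).2 (not_mem_of (o := dvOf P₀) (C'.ne 0) h1)
    (M3H47.log_of_exp (hor_dvOf P₀).cst (v_inv (o := dvOf P₀) h1) ha)
  refine ⟨_, 1, one_pos, gen_aff h3 ((Kz t).algebraMap_mem b) hb hc, hF, fun o ho e => ?_⟩
  obtain ⟨P, rfl⟩ := exists_place ho
  refine (hr P ?_).2
  rintro rfl
  have h4 : algebraMap ℂ L b * C'.z 0 + c ∈ (dvOf P).F 0 := Or.inr e.ge
  have h5 := (dvOf P).F_mul (ho.cst b⁻¹) (sub_mem h4 (ho.2 c hc))
  rw [add_sub_cancel_right, map_inv₀, inv_mul_cancel_left₀ hb] at h5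
  exact not_mem_of (o := dvOf P) (C'.ne 0) h1 h5

theorem fin2 (hS : Srf C d v b) (ht : ∃ X : VF L, X t ≠ 0)
    (hD : M3G.Deg Y 0 N) {P₀ P₁ : Place (Kz t) L} (h₀ : N P₀ = 1) (h₁ : N P₁ = 1) (hne : P₁ ≠ P₀)
    {a' : ℂ} (ha' : Exp d (dvOf P₀) a') {a : ℚ} (ha : Exp d (dvOf P₁) a) (a0 : 0 < a)
    (hc : ∀ m : ℤ, a = m → Cap d v (dvOf P₁) m)
    (hr : ∀ P, P ≠ P₀ → P ≠ P₁ → (Exp d (dvOf P) 1 ∧ Good d v (dvOf P)) ∧ R (dvOf P)) :
    FrE d v b t R := by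
  obtain ⟨y, h1, h2, h3, h4⟩ := hD.rat rfl P₀ h₀
  obtain ⟨c, hc1⟩ := h4 P₁ h₁ hne
  have hy0 : y ≠ 0 := fun e => by simp [e] at h1
  have g1 : P₀.ord (y - algebraMap _ L c) = -1 := P₀.ord_eq (by
    have e : P₀.val y = exp 1 := by rw [P₀.val_eq (P₀.val_ne hy0), h1, neg_neg]
    rw [P₀.val.map_sub_eq_of_lt_left, e, neg_neg]
    exact (P₀.const_le c).trans_lt (by rw [e, ← exp_zero, exp_lt_exp]; omega))
  have g2 : ∀ P, P ≠ P₀ → P.val (y - algebraMap _ L c) ≤ 1 := fun P hP =>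
    (P.val.map_sub _ _).trans (max_le (h2 P hP) (P.const_le c))
  have g3 : (Kz t)⟮y - algebraMap _ L c⟯ = ⊤ := by
    rw [eq_top_iff, ← h3, IntermediateField.adjoin_simple_le_iff]
    simpa using add_mem (IntermediateField.mem_adjoin_simple_self (Kz t) (y - algebraMap _ L c))
      (IntermediateField.algebraMap_mem _ c)
  have g4 := simple_zero hD h₀ g1 g2 hc1
  obtain ⟨C', e, hC⟩ := rul C ht g3
  rw [← e] at g1 g2 g4 hc1
  have hO : ∀ p : (Kz t)[X], Irreducible p → p.coeff 0 ≠ 0 → Ord d v (Kz t) (C'.z 0) p :=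
    fun p hp h0 => by
      obtain ⟨P, hP, h⟩ := ord_place hD g1 hp
      exact ⟨_, hor_dvOf P, (mem_F P).2 (g2 P hP), (lt_iff P).1 h,
        (hr P hP fun e => h.ne (e ▸ val_coeff hc1 h0)).1⟩
  have h0 := hor_dvOf P₁
  have h1 := hor_dvOf P₀
  have v0 : (dvOf P₁).v (C'.z 0) = 1 := g4
  have v1 : (dvOf P₀).v (C'.z 0) = -1 := g1
  refine ⟨C'.z 0, a, a0, hC.gen, ?_, fun o ho e => ?_⟩
  · by_cases hz : ∃ m : ℤ, a = m
    · obtain ⟨m, rfl⟩ := hz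
      obtain ⟨u, hu, hc⟩ := hc m rfl
      have m0 : 0 < m := by exact_mod_cast a0
      obtain ⟨n, rfl⟩ : ∃ n : ℕ, m = n + 1 := ⟨(m - 1).toNat, by omega⟩
      rw [show (1 : ℤ) - (n + 1) = -n by ring] at hc
      push_cast at ha ⊢
      exact fr_F2 C' hC.tr hC.gen d v b hS.prim n (good_of hO) h0.2 (M3H47.F_nu (Or.inr v0.ge))
        (M3H47.log_of_exp h0.cst v0 ha) (M3H47.logE_of_exp h0.cst v0 ha) h1.2
        (not_mem_of (C'.ne 0) v1) (M3H47.log_of_exp h1.cst (v_inv v1) ha')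
        ⟨u, hu, M3H47.cap_of_lv v0 hc⟩
    · exact fr_F1 C' hC.tr hC.gen d v b hS.prim a (fun m e => hz ⟨m, e⟩) (good_of hO) h0.2
        (M3H47.F_nu (Or.inr v0.ge)) (M3H47.log_of_exp h0.cst v0 ha)
        (M3H47.logE_of_exp h0.cst v0 ha) h1.2 (not_mem_of (C'.ne 0) v1)
        (M3H47.log_of_exp h1.cst (v_inv v1) ha')
  · obtain ⟨P, rfl⟩ := exists_place ho
    refine (hr P ?_ ?_).2 <;> rintro rfl <;> omega

end Main

variable {φ : L} {n : ℕ} {α : DV L → ℚ} {g : ℕ} {N : Place (Kz t) L → ℕ}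
  {A : Place (Kz t) L → ℚ} {S : Finset (Place (Kz t) L)}

/-- An ordinary curve. -/
def Ro (d : Dv L) (α : DV L → ℚ) (o : DV L) : Prop := α o = 0 ∧ Exp d o 1

theorem star_neg (hS : Srf C d v b)
    (ht : ∃ X : VF L, X t ≠ 0) {Y : Derivation (Kz t) L L} (hD : M3G.Deg Y g N)
    (h : Cls d v t α g N A S) (hlt : ∑ P ∈ S, (N P : ℚ) * α (dvOf P) < 0) :
    FrE d v b t (Ro d α) := by
  have hN : ∀ P, (1 : ℚ) ≤ N P := fun P => by exact_mod_cast hD.pos P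
  obtain ⟨P₀, h₀⟩ := h.neg hD.pos (by
    by_contra x
    push Not at x
    simp [x] at hlt)
  obtain ⟨m₀, e₀⟩ := h.core h₀.ne
  have s1 := le_one (N := N) h.nn m₀
  rw [h.sum, e₀] at s1
  have hg : g = 0 := by
    have : (g : ℚ) < 1 := by linarith [hN P₀]
    exact Nat.lt_one_iff.1 (by exact_mod_cast this)
  subst hg
  have n₀ : N P₀ = 1 := by
    have : (N P₀ : ℚ) < 2 := by push_cast at s1; linarith
    have h1 : N P₀ < 2 := by exact_mod_cast this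
    have := hD.pos P₀
    omega
  have key : ∀ P, P ≠ P₀ → ((A P = 1 ∧ Good d v (dvOf P)) ∧ α (dvOf P) = 0) ∨
      (P ∈ S ∧ α (dvOf P) = 0 ∧ 0 < A P ∧ A P ≤ 1 / 2) := fun P hP => by
    rcases h.cls P with e | ⟨e, e' | e'⟩
    · exfalso
      have m : P ∈ S := by_contra fun x => by linarith [h.off P x |>.1, h.off P x |>.2]
      have s2 := le_two (N := N) h.nn m₀ m hP.symm
      rw [h.sum, e₀, e] at s2
      push_cast at s2
      linarith [hN P, hN P₀]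
    · exact Or.inl ⟨e', e⟩
    · exact Or.inr ⟨by_contra fun x => by linarith [h.off P x |>.1], e, e'⟩
  by_cases hx : ∃ P, P ≠ P₀ ∧ P ∈ S ∧ α (dvOf P) = 0 ∧ 0 < A P ∧ A P ≤ 1 / 2
  · obtain ⟨P₁, hne, m₁, a₁, b₁, c₁⟩ := hx
    have n₁ : N P₁ = 1 := by
      have s2 := le_two (N := N) h.nn m₀ m₁ hne.symm
      rw [h.sum, e₀, a₁] at s2
      have : (N P₁ : ℚ) < 2 := by push_cast at s2; nlinarith [hN P₀, hN P₁]
      have h1 : N P₁ < 2 := by exact_mod_cast this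
      have := hD.pos P₁
      omega
    refine fin2 hS ht hD n₀ n₁ hne (h.exp P₀) (h.exp P₁) b₁ (fun m hm => ?_) fun P x y => ?_
    · rw [hm] at b₁ c₁
      have h1 : 0 < m := by exact_mod_cast b₁
      have h2 : (1 : ℚ) ≤ m := by exact_mod_cast h1
      linarith
    · rcases key P x with e | ⟨m, a, -, c⟩
      · have e1 : Exp d (dvOf P) 1 := by simpa [e.1.1] using h.exp P
        exact ⟨⟨e1, e.1.2⟩, e.2, e1⟩
      · have s3 := le_three (N := N) h.nn m₀ m₁ m hne.symm x.symm y.symm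
        rw [h.sum, e₀, a₁, a] at s3
        push_cast at s3
        nlinarith [hN P₀, hN P₁, hN P]
  · refine fin1 hS ht hD n₀ (h.exp P₀) fun P x => ?_
    have e := (key P x).resolve_right fun y => hx ⟨P, x, y⟩
    have e1 : Exp d (dvOf P) 1 := by simpa [e.1.1] using h.exp P
    exact ⟨⟨e1, e.1.2⟩, e.2, e1⟩

theorem fibN (hS : Srf C d v b) (ht : ∃ X : VF L, X t ≠ 0)
    (h1 : ∀ o, Hor (Kz t) o → ∃ a : ℚ, Exp d o a ∧ (a = α o ∨ (α o = 0 ∧ Hon d v o a)))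
    (hn : 0 < n) (h2 : ∀ o, Hor (Kz t) o → n * α o ≤ o.v φ)
    (h3 : ∃ o, Hor (Kz t) o ∧ n * α o < o.v φ) : FrE d v b t (Ro d α) := by
  obtain ⟨o, ho, h3⟩ := h3
  obtain ⟨Y, g, N, A, S, hD, hN⟩ := num gf hS ht φ n α
  have h := hN.cls h1 hn h2
  refine star_neg hS ht hD h ?_
  obtain ⟨P, rfl⟩ := exists_place ho
  have hn' : (0 : ℚ) < n := by exact_mod_cast hn
  have m : P ∈ S := by_contra fun x => by
    rw [(h.off P x).2, show (dvOf P).v φ = 0 from (hN.off P x).2] at h3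
    simp at h3
  refine lt_of_mul_lt_mul_left ?_ hn'.le
  rw [mul_zero, ← hN.deg, mul_sum]
  refine sum_lt_sum (fun P _ => ?_) ⟨P, m, ?_⟩ <;> rw [mul_left_comm]
  · exact mul_le_mul_of_nonneg_left (h2 _ (hor_dvOf P)) (Nat.cast_nonneg _)
  · exact mul_lt_mul_of_pos_left h3 (by exact_mod_cast hD.pos P)

theorem fibZ (hS : Srf C d v b) (ht : ∃ X : VF L, X t ≠ 0)
    (h1 : ∀ o, Hor (Kz t) o → ∃ a : ℚ, Exp d o a ∧
      ((a = α o ∧ a ≠ 0 ∧ ∀ m : ℤ, a = m → 0 < m → Cap d v o m) ∨ (α o = 0 ∧ Hon d v o a)))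
    (hn : 0 < n) (h2 : ∀ o, Hor (Kz t) o → n * α o ≤ o.v φ)
    (h3 : ∃ o, Hor (Kz t) o ∧ α o ≠ 0) : FrE d v b t (Ro d α) := by
  obtain ⟨o, ho, h3⟩ := h3
  obtain ⟨Y, g, N, A, S, hD, hN⟩ := num gf hS ht φ n α
  have h := hN.cls (v := v) (fun o ho => (h1 o ho).imp fun a x => ⟨x.1, x.2.imp_left And.left⟩)
    hn h2
  rcases h.le.lt_or_eq with hlt | h0
  · exact star_neg hS ht hD h hlt
  have hN' : ∀ P, (1 : ℚ) ≤ N P := fun P => by exact_mod_cast hD.pos P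
  obtain ⟨P, rfl⟩ := exists_place ho
  obtain ⟨P₀, h₀⟩ := h.neg hD.pos ⟨P, h3⟩
  obtain ⟨P₁, h₁⟩ := h.pos hD.pos h0 h₀
  obtain ⟨m₀, e₀⟩ := h.core h₀.ne
  obtain ⟨m₁, e₁⟩ := h.core h₁.ne'
  have hne : P₁ ≠ P₀ := fun e => by rw [e] at h₁; linarith
  have s2 := le_two (N := N) h.nn m₀ m₁ hne.symm
  rw [h.sum, e₀, e₁, h0] at s2
  have hg : g = 0 := by
    have : (g : ℚ) < 1 := by linarith [hN' P₀, hN' P₁]
    exact Nat.lt_one_iff.1 (by exact_mod_cast this)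
  subst hg
  push_cast at s2
  have n₀ : N P₀ = 1 := by exact_mod_cast le_antisymm (by linarith [hN' P₁]) (hN' P₀)
  have n₁ : N P₁ = 1 := by exact_mod_cast le_antisymm (by linarith [hN' P₀]) (hN' P₁)
  refine fin2 hS ht hD n₀ n₁ hne (h.exp P₀) (h.exp P₁) (e₁ ▸ h₁) (fun m hm => ?_)
    fun P x y => ?_
  · have h4 : 0 < m := by exact_mod_cast (hm ▸ e₁ ▸ h₁ : (0 : ℚ) < m)
    obtain ⟨a, ha, hb⟩ := h1 _ (hor_dvOf P₁)
    obtain rfl := hN.uniq P₁ a ha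
    exact (hb.resolve_right fun z => h₁.ne' z.1).2.2 m hm h4
  · have s3 : P ∈ S → (N P : ℚ) * (α (dvOf P) - A P + 1) ≤ 0 := fun m => by
      have s3 := le_three (N := N) h.nn m₀ m₁ m hne.symm x.symm y.symm
      rw [h.sum, e₀, e₁, h0] at s3
      push_cast at s3
      linarith [hN' P₀, hN' P₁]
    rcases h.cls P with e | ⟨e, e' | e'⟩
    · have m : P ∈ S := by_contra fun x => by linarith [h.off P x |>.1, h.off P x |>.2]
      have := s3 m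
      rw [e] at this
      linarith [hN' P]
    · have e1 : Exp d (dvOf P) 1 := by simpa [e'.1] using h.exp P
      exact ⟨⟨e1, e'.2⟩, e, e1⟩
    · have := s3 (by_contra fun x => by linarith [h.off P x |>.1])
      rw [e] at this
      nlinarith [hN' P]

end

end Pool.Agent.MP_5d9b3c_ag.P3F
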