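import Pool.Agent.MP_5d9b3c_ag.P3F.Desc
import Pool.Agent.MP_ee8c61_ag.M3RESID.Val

/-! The fibred cases of the surface datum with an invariant frame. -/

namespace Pool.Agent.MP_5d9b3c_ag.P3F

open Pool.Agent.MP_ee8c61_ag M3 M3RESID M3F Finset
open scoped IntermediateField

noncomputable section

variable {L : Type} [Field L] [Algebra ℂ L] {D : SD L} {t u : L} {N : ℤ} {G : Type}
  {ρ : G → L ≃+* L}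

theorem death (p : Pc D t) (h : D.OK) (h0 : 0 < D.t0)
    (hc : ∀ Γ, Hor (Kz t) Γ → D.ex Γ = D.α Γ ∨ (D.α Γ = 0 ∧ Hon D.d D.v Γ (D.ex Γ))) :
    FrE D.d D.v D.b t (Ro D.d D.α) := by
  obtain ⟨s₀, a0, a1⟩ := p.s0 h
  obtain ⟨Γ₀, h₀⟩ := p.hor h
  obtain ⟨s₁, ⟨b1, b0, -⟩, -⟩ := h.sem.dg1 _ (p.cv h₀)
  have h1 := h.sem.t1
  obtain ⟨r, hr, p₀, p₁, e₀, e₁⟩ : ∃ r : ℚ, 0 < r ∧ ∃ p₀ p₁ : ℤ, r * D.t0 = p₀ ∧ r * D.t1 = p₁ :=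
    ⟨D.t0.den * D.t1.den, by positivity, D.t0.num * D.t1.den, D.t1.num * D.t0.den, by
      push_cast; rw [← Rat.mul_den_eq_num]; ring, by push_cast; rw [← Rat.mul_den_eq_num]; ring⟩
  have q0 : (0 : ℚ) < p₀ := e₀ ▸ mul_pos hr h0
  have q1 : p₀ < p₁ := by
    have : (p₀ : ℚ) < p₁ := e₀ ▸ e₁ ▸ mul_lt_mul_of_pos_left h1 hr
    exact_mod_cast this
  obtain ⟨n, hn⟩ := Int.eq_ofNat_of_zero_le (sub_pos.2 q1).le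
  have hn' : (n : ℚ) = p₁ - p₀ := by exact_mod_cast hn.symm
  have key : ∀ Γ, Hor (Kz t) Γ → (Γ.v (s₁ ^ p₀ / s₀ ^ p₁) : ℚ) - ((D.m * n : ℕ) : ℚ) * D.α Γ =
      p₀ * (Γ.v s₁ + D.m * D.th D.t1 Γ) := fun Γ hΓ => by
    rw [div_eq_mul_inv, Γ.mul _ _ (zpow_ne_zero _ b0) (inv_ne_zero (zpow_ne_zero _ a0)), Γ.inv,
      dv_zpow Γ b0, dv_zpow Γ a0]
    push_cast
    rw [a1 Γ hΓ, hn', th_eq, th_eq, ← e₀, ← e₁]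
    ring
  refine fibN (φ := s₁ ^ p₀ / s₀ ^ p₁) (n := D.m * n) h.vol.srf p.der
    (fun Γ hΓ => ⟨_, h.vol.exp _ (p.cv hΓ), hc Γ hΓ⟩) (Nat.mul_pos h.sem.m (by omega))
    (fun Γ hΓ => ?_) ?_
  · have := dg_le (h.sem.dg1 _ (p.cv hΓ)) b1 b0
    rw [← sub_nonneg, key Γ hΓ]
    exact mul_nonneg q0.le (by linarith)
  · obtain ⟨Γ, hΓ, x⟩ := p.mov h b0
    exact ⟨Γ, hΓ, by rw [← sub_pos, key Γ hΓ]; exact mul_pos q0 (by linarith)⟩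

theorem last (p : Pc D t) (hm : t ∈ RF D.x D.S0) (h : D.OK) (h0 : D.t0 = 0) (hc : D.CC)
    (hz : D.Zc) : FrE D.d D.v D.b t (Ro D.d D.α) := by
  obtain ⟨R, θ, hR, hc⟩ := hc
  obtain ⟨φ, -, a1⟩ := p.zero h h0
  have nn : ∀ Γ, Hor (Kz t) Γ → ¬Null D.x D.S1 Γ := fun Γ hΓ e =>
    p.nn h hm hΓ (h.nul Γ (p.cv hΓ) e).1
  have co : ∀ Γ j, Hor (Kz t) Γ → D.Core j Γ → D.α Γ ≠ 0 := fun Γ j hΓ x e =>
    p.nn h hm hΓ (hz Γ j (p.cv hΓ) (nn Γ hΓ) x ((core_sum x D.al).symm.trans e)).1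
  refine fibZ h.vol.srf p.der (fun Γ hΓ => ⟨_, h.vol.exp _ (p.cv hΓ), ?_⟩) h.sem.m a1 ?_
  · refine (h.kvl Γ (p.cv hΓ) (nn Γ hΓ)).imp (fun ⟨j, x⟩ => ⟨x.1, x.1 ▸ co Γ j hΓ x,
      fun m _ hm => ?_⟩) fun x => ⟨by simp [SD.α, x.1], x.2⟩
    obtain ⟨r, hr⟩ := exists_gn hR Γ
    obtain ⟨n, n1, n2⟩ := (hc Γ (p.cv hΓ) r hr).1
    rw [x.1, sub_self] at n1
    have n3 : 0 ≤ n := by exact_mod_cast n1
    exact ⟨_, AddSubgroup.subset_closure ⟨_, _, rfl⟩, fun k g hg =>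
      Γ.F_anti (by omega) (n2 k g hg)⟩
  · obtain ⟨Γ, hΓ, x⟩ := p.pos h
    rcases h.kvl Γ (p.cv hΓ) (nn Γ hΓ) with ⟨j, y⟩ | y
    · exact ⟨Γ, hΓ, co Γ j hΓ y⟩
    · simp [SD.th, y.1] at x

/-- The order of `u` along the ordinary curves. -/
def Od (D : SD L) (u : L) (N : ℤ) : Prop := ∀ Γ, Cv D.x Γ → ¬Null D.x D.S1 Γ →
  (∀ j, D.β j Γ = 0) → D.ex Γ = 1 → N ∣ Γ.v u

/-- The ordinary curves are permuted. -/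
def Mv (ρ : G → L ≃+* L) (D : SD L) : Prop := ∀ σ o, Cv D.x o → Cv D.x (mvd (ρ σ) o) →
  Ro D.d D.α (mvd (ρ σ) o) → Ro D.d D.α o

theorem od_of (p : Pc D t) (h : D.OK) (hO : Od D u N)
    (hn : ∀ Γ, Hor (Kz t) Γ → Null D.x D.S1 Γ → D.ex Γ = D.α Γ) {o : DV L} (ho : Hor (Kz t) o)
    (hF : Ro D.d D.α o) : N ∣ o.v u := by
  obtain ⟨a0, a1⟩ := hF
  obtain ⟨π, hπ⟩ := ho.1
  have e1 : D.ex o = 1 := by exact_mod_cast (h.vol.exp _ (p.cv ho)).uniq a1 hπ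
  have e2 : D.ex o ≠ D.α o := by rw [e1, a0]; exact one_ne_zero
  have nn : ¬Null D.x D.S1 o := fun x => e2 (hn o ho x)
  exact hO o (p.cv ho) nn ((h.kvl o (p.cv ho) nn).resolve_left fun ⟨_, x⟩ => e2 x.1).1 e1

/-- The conclusion: an invariant pencil and an invariant frame over it. -/
def Res (ρ : G → L ≃+* L) (D : SD L) (u : L) (N : ℤ) : Prop :=
  ∃ t w y g, (∀ l, D.x l ∈ Kz t) ∧ (∃ X : VF L, X t ≠ 0) ∧ (∀ σ, ρ σ t = t) ∧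
    Out ρ D.d D.v D.b t (fun o => N ∣ o.v u) w y g

theorem res_of (A : Ac ρ D.d D.v D.b) (p : Pc D t) (h : D.OK) (hf : ∀ σ, ρ σ t = t)
    (hu : Mv ρ D) (hO : Od D u N)
    (hn : ∀ Γ, Hor (Kz t) Γ → Null D.x D.S1 Γ → D.ex Γ = D.α Γ)
    (hF : FrE D.d D.v D.b t (Ro D.d D.α)) : Res ρ D u N := by
  obtain ⟨w, y, g, x⟩ := A.out h.vol.srf p.der hf
    (fun σ o h1 h2 => hu σ o (p.cv h1) (p.cv h2)) hF
  exact ⟨t, w, y, g, fun l => p.le (x_mem _ _ l), p.der, hf,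
    { x with ord := fun o ho e => od_of p h hO hn ho (x.ord o ho e) }⟩

theorem exists_pc (A : Ac ρ D.d D.v D.b) (hS : ∀ σ, ∀ g ∈ RF D.x D.S0, ρ σ g ∈ RF D.x D.S0)
    (h : D.OK) (hp : ¬D.Pt) : ∃ t, t ∈ RF D.x D.S0 ∧ Pc D t ∧ ∀ σ, ρ σ t = t := by
  obtain ⟨t, h1, ⟨X, hX⟩, -⟩ := M3F.exists_pc h hp
  obtain ⟨s, s1, s2, s3⟩ := A.exists_fix (V := (RF D.x D.S0).toSubalgebra.toSubmodule) hS h1 hX
  exact ⟨s, s1, pc_of h ⟨X, s3⟩ s1, s2⟩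

theorem res1 (A : Ac ρ D.d D.v D.b) (hS : ∀ σ, ∀ g ∈ RF D.x D.S0, ρ σ g ∈ RF D.x D.S0)
    (hu : Mv ρ D) (hO : Od D u N) (h : D.OK) (h0 : 0 < D.t0) (hp : ¬D.Pt) :
    Res ρ D u N := by
  obtain ⟨t, hm, p, hf⟩ := exists_pc A hS h hp
  have nn : ∀ Γ, Hor (Kz t) Γ → ¬Null D.x D.S1 Γ := fun Γ hΓ e =>
    p.nn h hm hΓ (h.nul Γ (p.cv hΓ) e).1
  exact res_of A p h hf hu hO (fun Γ hΓ e => absurd e (nn Γ hΓ))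
    (death p h h0 fun Γ hΓ => cls_of h (p.cv hΓ) (nn Γ hΓ))

theorem res2 (A : Ac ρ D.d D.v D.b) (hu : Mv ρ D) (hO : Od D u N) (h : D.OK)
    (h0 : 0 < D.t0) (hp : D.Pt) (hf : ∀ σ, ρ σ t = t) (ht : ∃ X : VF L, X t ≠ 0)
    (hc : ∀ Γ, Cv D.x Γ → Null D.x D.S1 Γ → NC Γ t → D.ex Γ = D.α Γ) : Res ρ D u N := by
  have p : Pc D t := ⟨ht, fun g hg X _ => hp g hg X⟩
  have k : ∀ Γ, Hor (Kz t) Γ → Null D.x D.S1 Γ → D.ex Γ = D.α Γ := fun Γ hΓ e =>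
    hc Γ (p.cv hΓ) e (hΓ.nc (self_mem_Kz t) (ne_of_der ht))
  refine res_of A p h hf hu hO k (death p h h0 fun Γ hΓ => ?_)
  by_cases e : Null D.x D.S1 Γ
  · exact Or.inl (k Γ hΓ e)
  · exact cls_of h (p.cv hΓ) e

theorem res3 (A : Ac ρ D.d D.v D.b) (hS : ∀ σ, ∀ g ∈ RF D.x D.S0, ρ σ g ∈ RF D.x D.S0)
    (hu : Mv ρ D) (hO : Od D u N) (h : D.OK) (h0 : D.t0 = 0) (hc : D.CC) (hz : D.Zc)
    (hp : ¬D.Pt) : Res ρ D u N := by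
  obtain ⟨t, hm, p, hf⟩ := exists_pc A hS h hp
  exact res_of A p h hf hu hO
    (fun Γ hΓ e => absurd (h.nul Γ (p.cv hΓ) e).1 (p.nn h hm hΓ)) (last p hm h h0 hc hz)

end

end Pool.Agent.MP_5d9b3c_ag.P3F
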